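import Mathlib

/-!
# A base of a first countable Hausdorff space containing no disjoint base and pi-base

We construct, in ZFC, a first countable Hausdorff space `X` without isolated points and a base `B`
of `X` such that no base contained in `B` is disjoint from a pi-base contained in `B`.

Outline.  The members of `B` are indexed by a well-founded poset of valid nodes.  A node `r` is an
atom, or it consists of a finite down-closed set `Qs r` of nodes (the nodes strictly below `r`), a
sequence of finite chains (the `k`-th one is `g k 0 < ... < g k (len k)`) and a finite 0-1 label.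
A node above `r` must be an immediate successor of the last element of one of the chains of `r`,
and that chain has to be private (condition `Hd` in `Valid`).  Such nodes exist because the required
closure process is finite (`closure_lemma`).  If `D` is a cofinal set of valid nodes, then either the
labels of good chains inside `D` can be split everywhere, which gives a perfect tree of infinite good
chains inside `D` (`pt_lemma`), or there is a node `r` whose chains are chains in `D` none of which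
has a good extension in `D` by a node above `r`; then no node above `r` is in `D`, a contradiction
(`cofinal_rich`).  The points of `X` are infinite good chains, one for each sequence of nodes whose
range contains continuum many of them (up to labels); they are chosen with pairwise different labels,
which makes `X` a Hausdorff space.  A pi-base contained in `B` is a cofinal set of nodes, hence
contains all members of `B` between some member and a point `x`, so its complement in `B` is not a
base at `x`.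
-/

set_option autoImplicit false

namespace Pool.Agent.Results.MP_42a2a8_gt.HausdorffCounterexample

open Filter

/-- A nonprincipal ultrafilter on the natural numbers. -/
noncomputable abbrev UF : Filter ℕ := (Filter.hyperfilter ℕ : Filter ℕ)

/-- Raw nodes. -/
inductive Nd : Type
  | atom (a : ℕ → Bool) : Nd
  | node (n : ℕ) (q : ℕ → Nd) (len : ℕ → ℕ) (g : ℕ → ℕ → Nd) (s : List Bool) : Nd

namespace Nd

/-- The finite set of nodes strictly below a node. -/
def Qs : Nd → Set Nd
  | .atom _ => ∅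
  | .node n q _ _ _ => {z | ∃ i < n, z = q i}

/-- The label of a node. -/
def lab : Nd → List Bool
  | .atom _ => []
  | .node _ _ _ _ s => s

/-- The order. -/
def Le (z r : Nd) : Prop := z = r ∨ z ∈ Qs r

/-- The root of a node: the nodes below the last element of almost every chain of the node. -/
def Rt : Nd → Set Nd
  | .atom _ => ∅
  | .node _ _ len g _ => {f | ∀ᶠ k in UF, Le f (g k (len k))}

/-- Good chains `g 0 < ... < g m`: everything between `g 0` and `g m` is in the chain, and `g 0` is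
not in the root of any later element. -/
def Good (g : ℕ → Nd) (m : ℕ) : Prop :=
  ∀ j < m, g j ∈ Qs (g (j+1)) ∧ (∀ z ∈ Qs (g (j+1)), Le (g 0) z → ∃ i ≤ j, z = g i) ∧
    g 0 ∉ Rt (g (j+1))

/-- `z` is handled inside `Q`, by a chain whose first element is not in `E` -/
def Hd (Q E : Set Nd) : Nd → Prop
  | .atom _ => True
  | .node _ _ len g _ => ∃ k, g k (len k) ∈ Q ∧ (∀ w ∈ Q, Le (g k 0) w → ∃ i ≤ len k, w = g k i) ∧
      g k 0 ∉ E

/-- Valid nodes. -/
def Valid : Nd → Prop
  | .atom _ => True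
  | .node n q len g s =>
      (∀ i, Valid (q i)) ∧ (∀ k j, Valid (g k j)) ∧
      (∀ z ∈ Qs (.node n q len g s), Qs z ⊆ Qs (.node n q len g s)) ∧
      (∀ k, Good (g k) (len k)) ∧
      (∀ z ∈ Qs (.node n q len g s), lab z <+: s) ∧
      (Rt (.node n q len g s) ⊆ Qs (.node n q len g s)) ∧
      (∀ f, ∀ᶠ k in UF, g k 0 ≠ f) ∧
      (∀ z ∈ Qs (.node n q len g s), Hd (Qs (.node n q len g s)) (Rt (.node n q len g s)) z) ∧
      (∀ k, lab (g k (len k)) <+: s)

theorem wf : WellFounded (fun z r : Nd => z ∈ Qs r) := by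
  constructor
  intro r
  induction r with
  | atom a => exact ⟨_, fun y hy => absurd hy (by simp [Qs])⟩
  | node n q len g s ihq ihg =>
    refine ⟨_, fun y hy => ?_⟩
    obtain ⟨i, hi, rfl⟩ := hy
    exact ihq i

theorem irrefl (z : Nd) : z ∉ Qs z := fun h => wf.irrefl.irrefl z h

theorem finite_Qs (r : Nd) : (Qs r).Finite := by
  cases r with
  | atom a => simp [Qs]
  | node n q len g s =>
    have : Qs (.node n q len g s) = q '' Set.Iio n := by
      ext z; simp [Qs, eq_comm]
    rw [this]; exact (Set.finite_Iio n).image _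

theorem Valid.of_mem {r z : Nd} (hr : Valid r) (hz : z ∈ Qs r) : Valid z := by
  cases r with
  | atom a => simp [Qs] at hz
  | node n q len g s =>
    obtain ⟨i, hi, rfl⟩ := hz
    exact hr.1 i

theorem Valid.trans_mem {r z w : Nd} (hr : Valid r) (hz : z ∈ Qs r) (hw : w ∈ Qs z) :
    w ∈ Qs r := by
  cases r with
  | atom a => simp [Qs] at hz
  | node n q len g s => exact hr.2.2.1 z hz hw

theorem Le.refl (z : Nd) : Le z z := Or.inl rfl

theorem Le.trans {a b c : Nd} (hc : Valid c) (h1 : Le a b) (h2 : Le b c) : Le a c := by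
  rcases h1 with rfl | h1
  · exact h2
  · rcases h2 with rfl | h2
    · exact Or.inr h1
    · exact Or.inr (hc.trans_mem h2 h1)

theorem Valid.of_le {r z : Nd} (hr : Valid r) (hz : Le z r) : Valid z := by
  rcases hz with rfl | hz
  · exact hr
  · exact hr.of_mem hz

theorem Valid.lab_mem {r z : Nd} (hr : Valid r) (hz : z ∈ Qs r) : lab z <+: lab r := by
  cases r with
  | atom a => simp [Qs] at hz
  | node n q len g s => exact hr.2.2.2.2.1 z hz

theorem Valid.lab_le {r z : Nd} (hr : Valid r) (hz : Le z r) : lab z <+: lab r := by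
  rcases hz with rfl | hz
  · exact List.prefix_refl _
  · exact hr.lab_mem hz

theorem Valid.rt_sub {r : Nd} (hr : Valid r) : Rt r ⊆ Qs r := by
  cases r with
  | atom a => simp [Rt]
  | node n q len g s => exact hr.2.2.2.2.2.1

theorem finite_le (r : Nd) : {z | Le z r}.Finite := by
  have : {z | Le z r} = insert r (Qs r) := by
    ext z; simp [Le]
  rw [this]; exact (finite_Qs r).insert r


/-- A state of the closure process: a finite down-closed set `Q` of valid nodes and a finite set `C`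
of nodes which must not get new nodes above them. -/
structure St (Q C : Set Nd) : Prop where
  finQ : Q.Finite
  val : ∀ z ∈ Q, Valid z
  down : ∀ z ∈ Q, Qs z ⊆ Q
  finC : C.Finite
  safe : ∀ f ∈ C, ∀ z ∈ Q, f ∉ Rt z

/-- A later state of the closure process. -/
structure Ext (Q C Q' C' : Set Nd) : Prop where
  st : St Q' C'
  subQ : Q ⊆ Q'
  subC : C ⊆ C'
  new : ∀ z ∈ Q', z ∉ Q → ∀ f ∈ C, ¬ Le f z
  lab : ∀ z ∈ Q', ∃ z0 ∈ Q, lab z <+: lab z0

/-- `z` is handled in the state `Q`, `C`. -/
def Hdl (Q C E : Set Nd) : Nd → Prop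
  | .atom _ => True
  | .node _ _ len g _ => ∃ k, g k 0 ∈ C ∧ g k 0 ∉ E ∧ g k (len k) ∈ Q ∧
      ∀ w ∈ Q, Le (g k 0) w → ∃ i ≤ len k, w = g k i

theorem Ext.refl {Q C : Set Nd} (h : St Q C) : Ext Q C Q C :=
  ⟨h, subset_rfl, subset_rfl, fun _ hz hn => absurd hz hn,
    fun z hz => ⟨z, hz, List.prefix_refl _⟩⟩

theorem Ext.trans {Q C Q' C' Q'' C'' : Set Nd} (h : Ext Q C Q' C') (h' : Ext Q' C' Q'' C'') :
    Ext Q C Q'' C'' := by
  refine ⟨h'.st, h.subQ.trans h'.subQ, h.subC.trans h'.subC, ?_, ?_⟩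
  · intro z hz hn f hf
    by_cases hz' : z ∈ Q'
    · exact h.new z hz' hn f hf
    · exact h'.new z hz hz' f (h.subC hf)
  · intro z hz
    obtain ⟨z1, hz1, h1⟩ := h'.lab z hz
    obtain ⟨z0, hz0, h0⟩ := h.lab z1 hz1
    exact ⟨z0, hz0, h1.trans h0⟩

theorem Hdl.mono {Q C E Q' C' E' : Set Nd} {z : Nd} (h : Hdl Q C E z) (hE : E' ⊆ E)
    (he : Ext Q C Q' C') : Hdl Q' C' E' z := by
  cases z with
  | atom a => trivial
  | node n q len g s =>
    obtain ⟨k, h1, h2, h3, h4⟩ := h
    refine ⟨k, he.subC h1, fun h => h2 (hE h), he.subQ h3, fun w hw hle => ?_⟩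
    by_cases hwQ : w ∈ Q
    · exact h4 w hwQ hle
    · exact absurd hle (he.new w hw hwQ _ h1)

/-- `q` can be handled in every state. -/
def HH (q : Nd) : Prop :=
  ∀ Q C : Set Nd, St Q C → q ∈ Q → ∃ Q' C' : Set Nd, Ext Q C Q' C' ∧
    ∀ z, (z = q ∨ (z ∈ Q' ∧ z ∉ Q)) → Hdl Q' C' Q z

theorem list_HH (L : List Nd) (hL : ∀ z ∈ L, HH z) :
    ∀ Q C : Set Nd, St Q C → (∀ z ∈ L, z ∈ Q) → ∃ Q' C' : Set Nd, Ext Q C Q' C' ∧
    ∀ z, (z ∈ L ∨ (z ∈ Q' ∧ z ∉ Q)) → Hdl Q' C' Q z := by
  induction L with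
  | nil =>
    intro Q C hS _
    refine ⟨Q, C, Ext.refl hS, ?_⟩
    rintro z (hz | ⟨hz, hz'⟩)
    · simp at hz
    · exact absurd hz hz'
  | cons a L ih =>
    intro Q C hS hQ
    obtain ⟨Q1, C1, he1, h1⟩ := hL a (by simp) Q C hS (hQ a (by simp))
    obtain ⟨Q2, C2, he2, h2⟩ := ih (fun z hz => hL z (by simp [hz])) Q1 C1 he1.st
      (fun z hz => he1.subQ (hQ z (by simp [hz])))
    refine ⟨Q2, C2, he1.trans he2, ?_⟩
    rintro z hz
    by_cases hza : z = a ∨ (z ∈ Q1 ∧ z ∉ Q)
    · exact (h1 z hza).mono subset_rfl he2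
    · have : z ∈ L ∨ (z ∈ Q2 ∧ z ∉ Q1) := by
        rcases hz with hz | ⟨hz, hz'⟩
        · rcases List.mem_cons.1 hz with rfl | hz
          · exact absurd (Or.inl rfl) hza
          · exact Or.inl hz
        · right
          refine ⟨hz, fun h => hza (Or.inr ⟨h, hz'⟩)⟩
      exact (h2 z this).mono he1.subQ (Ext.refl he2.st)

theorem ev_not_le {q : Nd} {n : ℕ} {qq : ℕ → Nd} {len : ℕ → ℕ} {g : ℕ → ℕ → Nd} {s : List Bool}
    (hq : q = .node n qq len g s) {f : Nd} (hf : f ∉ Rt q) :
    ∀ᶠ k in UF, ¬ Le f (g k (len k)) := by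
  subst hq
  simp only [Rt, Set.mem_ofPred_eq] at hf
  exact Ultrafilter.eventually_not.2 hf

theorem mem_of_good {g : ℕ → Nd} {m : ℕ} (h : Good g m) (hv : Valid (g m)) {w : Nd}
    (hw : Le w (g m)) (hle : Le (g 0) w) : ∃ i ≤ m, w = g i := by
  rcases hw with rfl | hw
  · exact ⟨m, le_rfl, rfl⟩
  · cases m with
    | zero =>
      exfalso
      rcases hle with h0 | h0
      · subst h0; exact irrefl _ hw
      · exact irrefl _ (hv.trans_mem hw h0)
    | succ m =>
      obtain ⟨i, hi, rfl⟩ := (h m (Nat.lt_succ_self m)).2.1 w hw hle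
      exact ⟨i, by omega, rfl⟩

theorem safe_of_good {g : ℕ → Nd} {m : ℕ} (h : Good g m) (hv : Valid (g m)) {w : Nd}
    (hw : Le w (g m)) : g 0 ∉ Rt w := by
  intro hr
  have hvw : Valid w := hv.of_le hw
  have h0 : g 0 ∈ Qs w := hvw.rt_sub hr
  obtain ⟨i, hi, rfl⟩ := mem_of_good h hv hw (Or.inr h0)
  cases i with
  | zero => exact irrefl _ h0
  | succ i => exact (h i (by omega)).2.2 hr

theorem HH_all : ∀ q : Nd, HH q ∧ ∀ z ∈ Qs q, HH z := by
  intro q
  induction q with
  | atom a =>
    constructor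
    · intro Q C hS hq
      refine ⟨Q, C, Ext.refl hS, ?_⟩
      rintro z (rfl | ⟨hz, hz'⟩)
      · trivial
      · exact absurd hz hz'
    · intro z hz
      simp [Qs] at hz
  | node n qq len g s ihq ihg =>
    constructor
    swap
    · rintro z ⟨i, hi, rfl⟩
      exact (ihq i).1
    intro Q C hS hq
    have hv : Valid (.node n qq len g s) := hS.val _ hq
    have e1 : ∀ᶠ k in UF, ∀ f ∈ Q, g k 0 ≠ f := by
      rw [Filter.eventually_all_finite hS.finQ]
      intro f _
      exact hv.2.2.2.2.2.2.1 f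
    have e2 : ∀ᶠ k in UF, ∀ f ∈ C, ¬ Le f (g k (len k)) := by
      rw [Filter.eventually_all_finite hS.finC]
      intro f hf
      exact ev_not_le rfl (hS.safe f hf _ hq)
    obtain ⟨k, hk1, hk2⟩ := (e1.and e2).exists
    have hg : Good (g k) (len k) := hv.2.2.2.1 k
    have hvc : Valid (g k (len k)) := hv.2.1 k (len k)
    have hlabc : lab (g k (len k)) <+: s := hv.2.2.2.2.2.2.2.2 k
    have h0Q : g k 0 ∉ Q := fun h => hk1 _ h rfl
    set Q1 : Set Nd := Q ∪ {z | Le z (g k (len k))} with hQ1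
    set C1 : Set Nd := insert (g k 0) C with hC1
    have hS1 : St Q1 C1 := by
      refine ⟨hS.finQ.union (finite_le _), ?_, ?_, hS.finC.insert _, ?_⟩
      · rintro z (hz | hz)
        · exact hS.val z hz
        · exact hvc.of_le hz
      · rintro z (hz | hz)
        · exact (hS.down z hz).trans Set.subset_union_left
        · intro w hw
          right
          exact Le.trans hvc (Or.inr hw) hz
      · rintro f (rfl | hf) z (hz | hz)
        · intro hr
          exact h0Q (hS.down z hz ((hS.val z hz).rt_sub hr))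
        · exact safe_of_good hg hvc hz
        · exact hS.safe f hf z hz
        · intro hr
          have : f ∈ Qs z := (hvc.of_le hz).rt_sub hr
          exact hk2 f hf (Le.trans hvc (Or.inr this) hz)
    have he1 : Ext Q C Q1 C1 := by
      refine ⟨hS1, Set.subset_union_left, Set.subset_insert _ _, ?_, ?_⟩
      · rintro z (hz | hz) hn f hf hle
        · exact hn hz
        · exact hk2 f hf (Le.trans hvc hle hz)
      · rintro z (hz | hz)
        · exact ⟨z, hz, List.prefix_refl _⟩
        · exact ⟨_, hq, (hvc.lab_le hz).trans hlabc⟩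
    have hh1 : Hdl Q1 C1 Q (.node n qq len g s) := by
      refine ⟨k, Set.mem_insert _ _, h0Q, Or.inr (Le.refl _), ?_⟩
      rintro w (hw | hw) hle
      · exfalso
        rcases hle with h | h
        · exact h0Q (h ▸ hw)
        · exact h0Q (hS.down w hw h)
      · exact mem_of_good hg hvc hw hle
    obtain ⟨Q2, C2, he2, h2⟩ := list_HH (finite_le (g k (len k))).toFinset.toList (by
      intro z hz
      simp only [Finset.mem_toList, Set.Finite.mem_toFinset, Set.mem_ofPred_eq] at hz
      rcases hz with rfl | hz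
      · exact (ihg k (len k)).1
      · exact (ihg k (len k)).2 z hz) Q1 C1 hS1 (by
      intro z hz
      simp only [Finset.mem_toList, Set.Finite.mem_toFinset, Set.mem_ofPred_eq] at hz
      exact Or.inr hz)
    refine ⟨Q2, C2, he1.trans he2, ?_⟩
    rintro z (rfl | ⟨hz, hz'⟩)
    · exact hh1.mono subset_rfl he2
    · refine (h2 z ?_).mono Set.subset_union_left (Ext.refl he2.st)
      by_cases hz1 : z ∈ Q1
      · left
        rcases hz1 with h | h
        · exact absurd h hz'
        · simp only [Finset.mem_toList, Set.Finite.mem_toFinset, Set.mem_ofPred_eq]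
          exact h
      · exact Or.inr ⟨hz, hz1⟩

/-- closure lemma -/
theorem closure_lemma (Q C : Set Nd) (hS : St Q C) :
    ∃ Q' C' : Set Nd, Ext Q C Q' C' ∧ ∀ z ∈ Q', Hdl Q' C' Q z := by
  obtain ⟨Q', C', he, h⟩ := list_HH hS.finQ.toFinset.toList (fun z _ => (HH_all z).1) Q C hS
    (by intro z hz; simpa using hz)
  refine ⟨Q', C', he, fun z hz => h z ?_⟩
  by_cases hzQ : z ∈ Q
  · left; simpa using hzQ
  · exact Or.inr ⟨hz, hzQ⟩

theorem exists_enum (Q : Set Nd) (hf : Q.Finite) (hv : ∀ z ∈ Q, Valid z) :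
    ∃ (n : ℕ) (q : ℕ → Nd), (∀ i, Valid (q i)) ∧ {z | ∃ i < n, z = q i} = Q := by
  classical
  refine ⟨hf.toFinset.toList.length, fun i => hf.toFinset.toList.getD i (.atom fun _ => true),
    ?_, ?_⟩
  · intro i
    by_cases h : i < hf.toFinset.toList.length
    · have : hf.toFinset.toList.getD i (.atom fun _ => true) ∈ hf.toFinset.toList := by
        rw [List.getD_eq_getElem _ _ h]; exact List.getElem_mem h
      apply hv
      simpa using this
    · have : hf.toFinset.toList.getD i (.atom fun _ => true) = .atom fun _ => true :=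
        List.getD_eq_default _ _ (by omega)
      show Valid (hf.toFinset.toList.getD i (.atom fun _ => true))
      rw [this]
      trivial
  · ext z
    simp only [Set.mem_ofPred_eq]
    constructor
    · rintro ⟨i, hi, rfl⟩
      have : hf.toFinset.toList.getD i (.atom fun _ => true) ∈ hf.toFinset.toList := by
        rw [List.getD_eq_getElem _ _ hi]; exact List.getElem_mem hi
      simpa using this
    · intro hz
      have : z ∈ hf.toFinset.toList := by simpa using hz
      obtain ⟨i, hi, rfl⟩ := List.getElem_of_mem this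
      exact ⟨i, hi, by rw [List.getD_eq_getElem _ _ hi]⟩

theorem exists_node (Q : Set Nd) (g : ℕ → ℕ → Nd) (len : ℕ → ℕ) (s : List Bool)
    (hfin : Q.Finite) (hval : ∀ z ∈ Q, Valid z) (hdown : ∀ z ∈ Q, Qs z ⊆ Q)
    (hg : ∀ k j, Valid (g k j)) (hgood : ∀ k, Good (g k) (len k)) (hlab : ∀ z ∈ Q, lab z <+: s)
    (hrt : {f | ∀ᶠ k in UF, Le f (g k (len k))} ⊆ Q)
    (h0 : ∀ f, ∀ᶠ k in UF, g k 0 ≠ f)
    (hh : ∀ z ∈ Q, Hd Q {f | ∀ᶠ k in UF, Le f (g k (len k))} z)
    (hl : ∀ k, lab (g k (len k)) <+: s) :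
    ∃ (n : ℕ) (q : ℕ → Nd), Valid (.node n q len g s) ∧ Qs (.node n q len g s) = Q := by
  obtain ⟨n, q, hq, hQ⟩ := exists_enum Q hfin hval
  refine ⟨n, q, ?_, hQ⟩
  have e1 : Qs (.node n q len g s) = Q := hQ
  have e2 : Rt (.node n q len g s) = {f | ∀ᶠ k in UF, Le f (g k (len k))} := rfl
  unfold Valid
  rw [e1, e2]
  exact ⟨hq, hg, hdown, hgood, hlab, hrt, h0, hh, hl⟩

/-- Adding one more element to a chain. -/
def snoc (g : ℕ → Nd) (m : ℕ) (r : Nd) : ℕ → Nd := fun j => if j ≤ m then g j else r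

theorem snoc_le {g : ℕ → Nd} {m : ℕ} {r : Nd} {j : ℕ} (h : j ≤ m) : snoc g m r j = g j := by
  simp [snoc, h]

theorem snoc_gt {g : ℕ → Nd} {m : ℕ} {r : Nd} {j : ℕ} (h : m < j) : snoc g m r j = r := by
  simp [snoc, Nat.not_le.2 h]

theorem Good.congr {g g' : ℕ → Nd} {m : ℕ} (h : Good g m) (he : ∀ j ≤ m, g' j = g j) :
    Good g' m := by
  intro j hj
  have := h j hj
  rw [he j hj.le, he (j+1) hj, he 0 (Nat.zero_le _)]
  refine ⟨this.1, fun z hz hle => ?_, this.2.2⟩
  obtain ⟨i, hi, rfl⟩ := this.2.1 z hz hle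
  exact ⟨i, hi, (he i (by omega)).symm⟩

theorem Good.of_le {g : ℕ → Nd} {m n : ℕ} (h : Good g m) (hn : n ≤ m) : Good g n :=
  fun j hj => h j (by omega)

theorem good_snoc {g : ℕ → Nd} {m : ℕ} {r : Nd} (hgood : Good g m) (h1 : g m ∈ Qs r)
    (h2 : ∀ z ∈ Qs r, Le (g 0) z → ∃ i ≤ m, z = g i) (h3 : g 0 ∉ Rt r) :
    Good (snoc g m r) (m+1) := by
  intro j hj
  by_cases hjm : j < m
  · have := (hgood.congr (g' := snoc g m r) (fun j hj => snoc_le hj)) j hjm
    exact this
  · have hj' : j = m := by omega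
    subst hj'
    rw [snoc_le le_rfl, snoc_gt (Nat.lt_succ_self j), snoc_le (Nat.zero_le j)]
    refine ⟨h1, fun z hz hle => ?_, h3⟩
    obtain ⟨i, hi, rfl⟩ := h2 z hz hle
    exact ⟨i, hi, (snoc_le hi).symm⟩

theorem Hdl.toHd {Q C E F : Set Nd} {z : Nd} (h : Hdl Q C E z) (hF : F ⊆ E) : Hd Q F z := by
  cases z with
  | atom a => trivial
  | node n q len g s =>
    obtain ⟨k, h1, h2, h3, h4⟩ := h
    exact ⟨k, h3, h4, fun h => h2 (hF h)⟩

theorem atom_le {f : Nd} {a : ℕ → Bool} : Le f (.atom a) ↔ f = .atom a := by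
  simp [Le, Qs]

theorem ev_ne_of_inj {h : ℕ → Nd} (hi : Function.Injective h) (f : Nd) :
    ∀ᶠ k in UF, h k ≠ f := by
  have : {k | ¬ h k ≠ f}.Finite := by
    apply Set.Subsingleton.finite
    intro a ha b hb
    simp only [ne_eq, not_not, Set.mem_ofPred_eq] at ha hb
    exact hi (ha.trans hb.symm)
  exact Filter.hyperfilter_le_cofinite (by
    rw [Filter.mem_cofinite]
    exact this)

theorem ext_lemma_aux {g : ℕ → Nd} {m : ℕ} (hg : ∀ j, Valid (g j)) (hgood : Good g m) (i : Bool)
    (p : Nd) (hp : ¬ Le p (g m)) (b : ℕ → (ℕ → Bool)) (hb : Function.Injective b) :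
    ∃ (n : ℕ) (q : ℕ → Nd),
      Valid (.node n q (fun _ => 0) (fun k _ => .atom (b k)) (lab (g m) ++ [i])) ∧
      g m ∈ Qs (.node n q (fun _ => 0) (fun k _ => .atom (b k)) (lab (g m) ++ [i])) ∧
      (∀ z ∈ Qs (.node n q (fun _ => 0) (fun k _ => .atom (b k)) (lab (g m) ++ [i])),
        Le (g 0) z → ∃ i ≤ m, z = g i) ∧
      g 0 ∉ Rt (.node n q (fun _ => 0) (fun k _ => .atom (b k)) (lab (g m) ++ [i])) ∧
      p ∉ Qs (.node n q (fun _ => 0) (fun k _ => .atom (b k)) (lab (g m) ++ [i])) := by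
  have hbi : Function.Injective (fun k => Nd.atom (b k)) := by
    intro k l h
    simp only [Nd.atom.injEq] at h
    exact hb h
  have hrt : {f | ∀ᶠ k in UF, Le f (.atom (b k))} = ∅ := by
    ext f
    simp only [Set.mem_ofPred_eq, Set.mem_empty_iff_false, iff_false]
    intro h
    obtain ⟨k, h1, h2⟩ := (h.and (ev_ne_of_inj hbi f)).exists
    rw [atom_le] at h1
    exact h2 h1.symm
  have hm : Valid (g m) := hg m
  have hS : St {z | Le z (g m)} {g 0, p} := by
    refine ⟨finite_le _, fun z hz => hm.of_le hz, fun z hz w hw => Le.trans hm (Or.inr hw) hz,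
      by simp, ?_⟩
    rintro f (rfl | rfl) z hz
    · exact safe_of_good hgood hm hz
    · intro hr
      have : f ∈ Qs z := (hm.of_le hz).rt_sub hr
      exact hp (Le.trans hm (Or.inr this) hz)
  obtain ⟨Q', C', he, hH⟩ := closure_lemma _ _ hS
  obtain ⟨n, q, hv, hQ⟩ := exists_node Q' (fun k _ => .atom (b k)) (fun _ => 0) (lab (g m) ++ [i])
    he.st.finQ he.st.val he.st.down (fun k j => trivial) (fun k j hj => absurd hj (Nat.not_lt_zero _))
    (by
      intro z hz
      obtain ⟨z0, hz0, h⟩ := he.lab z hz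
      exact (h.trans (hm.lab_le hz0)).trans (List.prefix_append _ _))
    (by
      show {f | ∀ᶠ k in UF, Le f (.atom (b k))} ⊆ Q'
      rw [hrt]; exact Set.empty_subset _)
    (fun f => ev_ne_of_inj hbi f)
    (by
      intro z hz
      refine (hH z hz).toHd ?_
      show {f | ∀ᶠ k in UF, Le f (.atom (b k))} ⊆ _
      rw [hrt]; exact Set.empty_subset _)
    (fun k => by simp [lab])
  refine ⟨n, q, hv, ?_, ?_, ?_, ?_⟩
  · rw [hQ]; exact he.subQ (Le.refl _)
  · rw [hQ]
    intro z hz hle
    by_cases hzQ : z ∈ {z | Le z (g m)}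
    · exact mem_of_good hgood hm hzQ hle
    · exact absurd hle (he.new z hz hzQ _ (by simp))
  · show g 0 ∉ {f | ∀ᶠ k in UF, Le f (.atom (b k))}
    rw [hrt]; simp
  · rw [hQ]
    intro hpQ
    by_cases hzQ : p ∈ {z | Le z (g m)}
    · exact hp hzQ
    · exact he.new p hpQ hzQ p (by simp) (Le.refl p)

theorem ext_lemma {g : ℕ → Nd} {m : ℕ} (hg : ∀ j, Valid (g j)) (hgood : Good g m) (i : Bool)
    (p : Nd) (hp : ¬ Le p (g m)) :
    ∃ r : Nd, Valid r ∧ lab r = lab (g m) ++ [i] ∧ g m ∈ Qs r ∧ Good (snoc g m r) (m+1) ∧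
      ¬ Le p r := by
  have hb1 : Function.Injective (fun k : ℕ => fun j : ℕ => decide (j = k)) := by
    intro k l h
    have := congrFun h k
    simpa using this
  have hb2 : Function.Injective (fun k : ℕ => fun j : ℕ => decide (j = k + 1)) := by
    intro k l h
    have := congrFun h (k+1)
    simpa using this
  obtain ⟨n1, q1, a1, a2, a3, a4, a5⟩ := ext_lemma_aux hg hgood i p hp _ hb1
  obtain ⟨n2, q2, b1, b2, b3, b4, b5⟩ := ext_lemma_aux hg hgood i p hp _ hb2
  by_cases hpe : p = .node n1 q1 (fun _ => 0) (fun k _ => .atom (fun j : ℕ => decide (j = k)))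
    (lab (g m) ++ [i])
  · refine ⟨_, b1, rfl, b2, good_snoc hgood b2 b3 b4, ?_⟩
    rintro (h | h)
    · rw [hpe] at h
      simp only [Nd.node.injEq] at h
      have := congrFun (congrFun h.2.2.2.1 0) 0
      simp only [Nd.atom.injEq] at this
      have := congrFun this 0
      simp at this
    · exact b5 h
  · refine ⟨_, a1, rfl, a2, good_snoc hgood a2 a3 a4, ?_⟩
    rintro (h | h)
    · exact hpe h
    · exact a5 h

/-- finite good chains inside `E` -/
structure Sq (E : Set Nd) where
  g : ℕ → Nd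
  m : ℕ
  mem : ∀ j, g j ∈ E
  good : Good g m

/-- The last element of a chain. -/
def Sq.top {E : Set Nd} (t : Sq E) : Nd := t.g t.m

/-- Proper extension of chains. -/
def Sq.Ex {E : Set Nd} (t t' : Sq E) : Prop := t.m < t'.m ∧ ∀ j ≤ t.m, t'.g j = t.g j

theorem Sq.Ex.trans {E : Set Nd} {t t' t'' : Sq E} (h : t.Ex t') (h' : t'.Ex t'') : t.Ex t'' :=
  ⟨h.1.trans h'.1, fun j hj => by rw [h'.2 j (hj.trans h.1.le), h.2 j hj]⟩

/-- infinite good chains with labels of unbounded length -/
def IsPt (x : ℕ → Nd) : Prop :=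
  (∀ n, Valid (x n)) ∧ (∀ n, Good x n) ∧ ∀ N, ∃ n, N < (lab (x n)).length

/-- The limit of the labels along an infinite chain, as a set of natural numbers. -/
def lam (x : ℕ → Nd) : Set ℕ := {j | ∃ n, (lab (x n))[j]? = some true}

/-- The limit labels of the infinite good chains inside the range of `f`. -/
def Lam (f : ℕ → Nd) : Set (Set ℕ) :=
  {l | ∃ x : ℕ → Nd, IsPt x ∧ (∀ n, x n ∈ Set.range f) ∧ l = lam x}

theorem IsPt.le_of_le {x : ℕ → Nd} (hx : IsPt x) {a b : ℕ} (h : a ≤ b) : Le (x a) (x b) := by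
  induction b, h using Nat.le_induction with
  | base => exact Le.refl _
  | succ b hab ih =>
    exact Le.trans (hx.1 _) ih (Or.inr (hx.2.1 (b+1) b (Nat.lt_succ_self b)).1)

theorem prefix_getElem? {l l' : List Bool} (h : l <+: l') {j : ℕ} {b : Bool}
    (hj : l[j]? = some b) : l'[j]? = some b := by
  obtain ⟨t, rfl⟩ := h
  have hlt : j < l.length := by
    by_contra hc
    rw [List.getElem?_eq_none (by omega)] at hj
    simp at hj
  rw [List.getElem?_append_left hlt]
  exact hj

theorem IsPt.bit_unique {x : ℕ → Nd} (hx : IsPt x) {a b j : ℕ} {u v : Bool}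
    (h1 : (lab (x a))[j]? = some u) (h2 : (lab (x b))[j]? = some v) : u = v := by
  have e1 := prefix_getElem? ((hx.1 (max a b)).lab_le (hx.le_of_le (le_max_left a b))) h1
  have e2 := prefix_getElem? ((hx.1 (max a b)).lab_le (hx.le_of_le (le_max_right a b))) h2
  rw [e1] at e2
  exact Option.some.inj e2

/-- Reversed initial segments of a 0-1 sequence. -/
def pre (β : ℕ → Bool) : ℕ → List Bool
  | 0 => []
  | n+1 => β n :: pre β n

theorem pt_lemma (E : Set Nd) (hE : ∀ z ∈ E, Valid z) (t0 : Sq E)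
    (h : ∀ t : Sq E, (t = t0 ∨ t0.Ex t) → ∀ i : Bool, ∃ t' : Sq E, t.Ex t' ∧
      lab t.top ++ [i] <+: lab t'.top) :
    ∃ f : ℕ → Nd, (∀ n, f n ∈ E) ∧ Cardinal.continuum ≤ Cardinal.mk (Lam f) := by
  classical
  have h' : ∀ (t : {t : Sq E // t = t0 ∨ t0.Ex t}) (i : Bool),
      ∃ t' : {t : Sq E // t = t0 ∨ t0.Ex t}, t.1.Ex t'.1 ∧ lab t.1.top ++ [i] <+: lab t'.1.top := by
    rintro ⟨t, ht⟩ i
    obtain ⟨t', h1, h2⟩ := h t ht i
    refine ⟨⟨t', ?_⟩, h1, h2⟩
    rcases ht with rfl | ht
    · exact Or.inr h1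
    · exact Or.inr (ht.trans h1)
  choose nxt hnxt using h'
  let T : List Bool → {t : Sq E // t = t0 ∨ t0.Ex t} :=
    fun l => l.foldr (fun i t => nxt t i) ⟨t0, Or.inl rfl⟩
  have hT : ∀ i l, T (i :: l) = nxt (T l) i := fun i l => rfl
  have hTe : ∀ i l, (T l).1.Ex (T (i :: l)).1 := fun i l => (hnxt (T l) i).1
  have hTl : ∀ i l, lab (T l).1.top ++ [i] <+: lab (T (i :: l)).1.top :=
    fun i l => (hnxt (T l) i).2
  have hA : ∀ (β : ℕ → Bool) (n k : ℕ), (T (pre β n)).1.m + k ≤ (T (pre β (n+k))).1.m ∧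
      ∀ j ≤ (T (pre β n)).1.m, (T (pre β (n+k))).1.g j = (T (pre β n)).1.g j := by
    intro β n k
    induction k with
    | zero => exact ⟨le_rfl, fun j _ => rfl⟩
    | succ k ih =>
      have := hTe (β (n+k)) (pre β (n+k))
      have h1 := this.1
      have h2 := this.2
      change (T (pre β (n+k))).1.m < (T (pre β (n+(k+1)))).1.m at h1
      change ∀ j ≤ (T (pre β (n+k))).1.m, (T (pre β (n+(k+1)))).1.g j = (T (pre β (n+k))).1.g j at h2
      refine ⟨by omega, fun j hj => ?_⟩
      rw [h2 j (by omega), ih.2 j hj]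
  have hm : ∀ (β : ℕ → Bool) (n : ℕ), n ≤ (T (pre β n)).1.m := by
    intro β n
    have := (hA β 0 n).1
    rw [Nat.zero_add] at this
    omega
  let x : (ℕ → Bool) → ℕ → Nd := fun β n => (T (pre β n)).1.g n
  have hx : ∀ (β : ℕ → Bool) (N j : ℕ), j ≤ (T (pre β N)).1.m →
      x β j = (T (pre β N)).1.g j := by
    intro β N j hj
    rcases le_total j N with h1 | h1
    · obtain ⟨k, rfl⟩ := Nat.exists_eq_add_of_le h1
      exact ((hA β j k).2 j (hm β j)).symm
    · obtain ⟨k, rfl⟩ := Nat.exists_eq_add_of_le h1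
      exact (hA β N k).2 (N+k) hj
  have htop : ∀ (β : ℕ → Bool) (N : ℕ), x β ((T (pre β N)).1.m) = (T (pre β N)).1.top :=
    fun β N => hx β N _ le_rfl
  have hlen : ∀ (β : ℕ → Bool) (N : ℕ), N ≤ (lab (T (pre β N)).1.top).length := by
    intro β N
    induction N with
    | zero => exact Nat.zero_le _
    | succ N ih =>
      have := (hTl (β N) (pre β N)).length_le
      rw [List.length_append, List.length_singleton] at this
      change _ ≤ (lab (T (pre β (N+1))).1.top).length at this
      omega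
  have hpt : ∀ β, IsPt (x β) := by
    intro β
    refine ⟨fun n => hE _ ((T (pre β n)).1.mem n), fun n => ?_, fun N => ?_⟩
    · exact (((T (pre β n)).1.good).of_le (hm β n)).congr
        (fun j hj => hx β n j (hj.trans (hm β n)))
    · refine ⟨(T (pre β (N+1))).1.m, ?_⟩
      rw [htop]
      have := hlen β (N+1)
      omega
  -- countable enumeration
  have hcount : (Set.range fun p : List Bool × ℕ => (T p.1).1.g p.2).Countable :=
    Set.countable_range _
  obtain ⟨f, hf⟩ := hcount.exists_eq_range ⟨_, Set.mem_range_self ([], 0)⟩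
  have hfE : ∀ n, f n ∈ E := by
    intro n
    have : f n ∈ Set.range fun p : List Bool × ℕ => (T p.1).1.g p.2 := by
      rw [hf]; exact Set.mem_range_self n
    obtain ⟨p, hp⟩ := this
    rw [← hp]
    exact (T p.1).1.mem p.2
  refine ⟨f, hfE, ?_⟩
  have hmem : ∀ β, lam (x β) ∈ Lam f := by
    intro β
    refine ⟨x β, hpt β, fun n => ?_, rfl⟩
    rw [← hf]
    exact ⟨(pre β n, n), rfl⟩
  have key : ∀ (β β' : ℕ → Bool) (n : ℕ), pre β n = pre β' n → β n = true → β' n = false →
      lam (x β) ≠ lam (x β') := by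
    intro β β' n hpre h1 h2 heq
    set L := (lab (T (pre β n)).1.top).length with hL
    have a1 := hTl (β n) (pre β n)
    have b1 := hTl (β' n) (pre β' n)
    rw [h1] at a1
    rw [h2, ← hpre] at b1
    have a2 : (lab (T (pre β (n+1))).1.top)[L]? = some true := by
      change (lab (T (β n :: pre β n)).1.top)[L]? = some true
      rw [h1]
      refine prefix_getElem? a1 ?_
      rw [List.getElem?_append_right (by omega)]
      simp [hL]
    have b2 : (lab (T (pre β' (n+1))).1.top)[L]? = some false := by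
      change (lab (T (β' n :: pre β' n)).1.top)[L]? = some false
      rw [h2, ← hpre]
      refine prefix_getElem? b1 ?_
      rw [List.getElem?_append_right (by omega)]
      simp [hL]
    rw [← htop] at a2 b2
    have : L ∈ lam (x β') := by
      rw [← heq]; exact ⟨_, a2⟩
    obtain ⟨n', hn'⟩ := this
    have := (hpt β').bit_unique hn' b2
    simp at this
  have hinj : Function.Injective (fun β => (⟨lam (x β), hmem β⟩ : Lam f)) := by
    intro β β' heq
    simp only [Subtype.mk.injEq] at heq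
    by_contra hne
    have hex : ∃ n, β n ≠ β' n := by
      by_contra hc
      push Not at hc
      exact hne (funext hc)
    have hn := Nat.find_spec hex
    have hmin : ∀ k < Nat.find hex, β k = β' k := by
      intro k hk
      by_contra hc
      exact Nat.find_min hex hk hc
    have hpre : ∀ k ≤ Nat.find hex, pre β k = pre β' k := by
      intro k hk
      induction k with
      | zero => rfl
      | succ k ih =>
        simp only [pre]
        rw [ih (by omega), hmin k (by omega)]
    cases hb : β (Nat.find hex) with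
    | true =>
      cases hb' : β' (Nat.find hex) with
      | true => exact hn (hb.trans hb'.symm)
      | false => exact key β β' _ (hpre _ le_rfl) hb hb' heq
    | false =>
      cases hb' : β' (Nat.find hex) with
      | true => exact key β' β _ (hpre _ le_rfl).symm hb' hb heq.symm
      | false => exact hn (hb.trans hb'.symm)
  have := Cardinal.mk_le_of_injective hinj
  refine le_trans ?_ this
  simp

theorem exists_infinite_fiber' {α : Type} [Countable α] (F : (ℕ → Bool) → α) :
    ∃ c, {a | F a = c}.Infinite := by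
  by_contra hc
  push Not at hc
  have h1 : (Set.univ : Set (ℕ → Bool)) = ⋃ c, {a | F a = c} := by
    ext a; simp
  have h2 : (Set.univ : Set (ℕ → Bool)).Countable := by
    rw [h1]
    exact Set.countable_iUnion fun c => (hc c).countable
  have h3 : Cardinal.mk (ℕ → Bool) ≤ Cardinal.aleph0 := by
    rw [← Cardinal.mk_univ]
    exact h2.le_aleph0
  have h4 : Cardinal.mk (ℕ → Bool) = Cardinal.continuum := by simp
  rw [h4] at h3
  exact absurd h3 (not_le.2 Cardinal.aleph0_lt_continuum)

instance : Infinite Nd := Infinite.of_injective (fun k : ℕ → Bool => Nd.atom k) (by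
  intro a b h
  simpa using h)

theorem cofinal_rich (D : Set Nd) (hD : ∀ z ∈ D, Valid z)
    (hcof : ∀ p, Valid p → ∃ d ∈ D, Le p d) :
    ∃ f : ℕ → Nd, (∀ n, f n ∈ D) ∧ Cardinal.continuum ≤ Cardinal.mk (Lam f) := by
  classical
  by_contra hno
  have hb : ∀ t0 : Sq D, ∃ t : Sq D, (t = t0 ∨ t0.Ex t) ∧ ∃ i : Bool, ∀ t' : Sq D, t.Ex t' →
      ¬ (lab t.top ++ [i] <+: lab t'.top) := by
    intro t0
    by_contra hc
    push Not at hc
    exact hno (pt_lemma D hD t0 hc)
  choose d hdD hd using fun a : ℕ → Bool => hcof (.atom a) trivial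
  choose t ht i hi using fun a : ℕ → Bool => hb ⟨fun _ => d a, 0, fun _ => hdD a,
    fun j hj => absurd hj (Nat.not_lt_zero _)⟩
  have ht0 : ∀ a, (t a).g 0 = d a := by
    intro a
    rcases ht a with h | h
    · rw [h]
    · exact h.2 0 le_rfl
  obtain ⟨⟨N, s0, i0⟩, hinf⟩ := exists_infinite_fiber'
    (fun a => ((finite_le (t a).top).toFinset.card, lab (t a).top, i a))
  let e := hinf.natEmbedding
  have heF : ∀ k, (finite_le (t (e k)).top).toFinset.card = N ∧ lab (t (e k)).top = s0 ∧
      i (e k) = i0 := by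
    intro k
    have := (e k).2
    simp only [Set.mem_ofPred_eq, Prod.mk.injEq] at this
    exact this
  have hval : ∀ k j, Valid ((t (e k)).g j) := fun k j => hD _ ((t (e k)).mem j)
  set R : Set Nd := {f | ∀ᶠ k in UF, Le f ((t (e k)).g ((t (e k)).m))} with hR
  have hRfin : R.Finite := by
    by_contra hc
    obtain ⟨T, hT, hTc⟩ := (Set.not_finite.1 hc : R.Infinite).exists_subset_card_eq (N+1)
    have : ∀ᶠ k in UF, ∀ f ∈ T, Le f ((t (e k)).g ((t (e k)).m)) := by
      rw [Filter.eventually_all_finset]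
      intro f hf
      exact hT hf
    obtain ⟨k, hk⟩ := this.exists
    have h1 : T ⊆ (finite_le (t (e k)).top).toFinset := by
      intro f hf
      simp only [Set.Finite.mem_toFinset, Set.mem_ofPred_eq]
      exact hk f hf
    have := Finset.card_le_card h1
    rw [hTc, (heF k).1] at this
    omega
  have hRk : ∀ f ∈ R, ∃ k, Le f (t (e k)).top := fun f hf => (Filter.Eventually.exists hf)
  have hS : St R ∅ := by
    refine ⟨hRfin, ?_, ?_, Set.finite_empty, fun f hf => absurd hf (Set.notMem_empty f)⟩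
    · intro f hf
      obtain ⟨k, hk⟩ := hRk f hf
      exact (hval k _).of_le hk
    · intro f hf w hw
      refine Filter.Eventually.mono hf fun k hk => ?_
      exact Le.trans (hval k _) (Or.inr hw) hk
  obtain ⟨Q', C', he, hH⟩ := closure_lemma _ _ hS
  obtain ⟨n, q, hv, hQ⟩ := exists_node Q' (fun k => (t (e k)).g) (fun k => (t (e k)).m)
    (s0 ++ [i0]) he.st.finQ he.st.val he.st.down hval (fun k => (t (e k)).good)
    (by
      intro z hz
      obtain ⟨z0, hz0, h⟩ := he.lab z hz
      obtain ⟨k, hk⟩ := hRk z0 hz0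
      have h1 := (hval k _).lab_le hk
      have h2 := (heF k).2.1
      change lab z0 <+: lab (t (e k)).top at h1
      rw [h2] at h1
      exact (h.trans h1).trans (List.prefix_append _ _))
    he.subQ
    (by
      intro f
      have hfin : {k | ¬ (t (e k)).g 0 ≠ f}.Finite := by
        have hinj : Function.Injective (fun k => Nd.atom (e k : ℕ → Bool)) := by
          intro a b h
          simp only [Nd.atom.injEq] at h
          exact e.injective (Subtype.ext h)
        refine Set.Finite.subset ((finite_le f).preimage (hinj.injOn)) ?_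
        intro k hk
        simp only [ne_eq, not_not, Set.mem_ofPred_eq] at hk
        have := hd (e k)
        rw [← ht0, hk] at this
        exact this
      exact Filter.hyperfilter_le_cofinite (by
        rw [Filter.mem_cofinite]
        exact hfin))
    (by
      intro z hz
      exact (hH z hz).toHd subset_rfl)
    (by
      intro k
      have := (heF k).2.1
      change lab ((t (e k)).g ((t (e k)).m)) = s0 at this
      rw [this]
      exact List.prefix_append _ _)
  set r : Nd := .node n q (fun k => (t (e k)).m) (fun k => (t (e k)).g) (s0 ++ [i0]) with hr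
  obtain ⟨p, hp⟩ := (finite_le r).exists_notMem
  obtain ⟨r', hv', -, hrr', -, -⟩ := ext_lemma (g := fun _ => r) (m := 0) (fun _ => hv)
    (fun j hj => absurd hj (Nat.not_lt_zero _)) true p hp
  obtain ⟨dd, hddD, hdd⟩ := hcof r' hv'
  have hvd : Valid dd := hD _ hddD
  have hrd : r ∈ Qs dd := by
    rcases hdd with h | h
    · rw [← h]; exact hrr'
    · exact hvd.trans_mem h hrr'
  have hHd : Hd (Qs dd) (Rt dd) r := by
    cases hdn : dd with
    | atom a => rw [hdn] at hrd; simp [Qs] at hrd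
    | node n' q' len' g' s' =>
      rw [hdn] at hvd hrd
      exact hvd.2.2.2.2.2.2.2.1 r hrd
  obtain ⟨k, h1, h2, h3⟩ := hHd
  refine hi (e k) ⟨snoc (t (e k)).g (t (e k)).m dd, (t (e k)).m + 1, ?_, ?_⟩ ?_ ?_
  · intro j
    unfold snoc
    split_ifs
    · exact (t (e k)).mem j
    · exact hddD
  · exact good_snoc (t (e k)).good h1 h2 h3
  · exact ⟨Nat.lt_succ_self _, fun j hj => snoc_le hj⟩
  · rw [(heF k).2.1, (heF k).2.2]
    change _ <+: lab (snoc (t (e k)).g (t (e k)).m dd ((t (e k)).m + 1))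
    rw [snoc_gt (Nat.lt_succ_self _)]
    exact hvd.lab_mem hrd

theorem avoid_rich (q p : Nd) (hq : Valid q) (hp : ¬ Le p q) :
    ∃ f : ℕ → Nd, (∀ n, Le q (f n) ∧ ¬ Le p (f n)) ∧
      Cardinal.continuum ≤ Cardinal.mk (Lam f) := by
  obtain ⟨f, hf, hc⟩ := pt_lemma {z | Valid z ∧ Le q z ∧ ¬ Le p z} (fun z hz => hz.1)
    ⟨fun _ => q, 0, fun _ => ⟨hq, Le.refl q, hp⟩, fun j hj => absurd hj (Nat.not_lt_zero _)⟩
    (by
      intro t _ i
      have hm := t.mem t.m
      obtain ⟨r, h1, h2, h3, h4, h5⟩ := ext_lemma (fun j => (t.mem j).1) t.good i p hm.2.2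
      refine ⟨⟨snoc t.g t.m r, t.m + 1, ?_, h4⟩, ⟨Nat.lt_succ_self _, fun j hj => snoc_le hj⟩, ?_⟩
      · intro j
        unfold snoc
        split_ifs
        · exact t.mem j
        · exact ⟨h1, Le.trans h1 hm.2.1 (Or.inr h3), h5⟩
      · change _ <+: lab (snoc t.g t.m r (t.m + 1))
        rw [snoc_gt (Nat.lt_succ_self _), h2]
        exact List.prefix_refl _)
  exact ⟨f, fun n => (hf n).2, hc⟩

/-- coding nodes by labelled trees -/
def enc : Nd → List ℕ → (ℕ → Bool) ⊕ (ℕ × (ℕ → ℕ) × List Bool)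
  | .atom a, _ => Sum.inl a
  | .node n _ len _ s, [] => Sum.inr (n, len, s)
  | .node _ q _ _ _, 0 :: i :: l => enc (q i) l
  | .node _ _ _ g _, (_+1) :: k :: j :: l => enc (g k j) l
  | .node _ _ _ _ _, _ => Sum.inl fun _ => true

theorem enc_inj : Function.Injective enc := by
  intro a
  induction a with
  | atom a =>
    intro b h
    cases b with
    | atom b =>
      have := congrFun h []
      simp only [enc, Sum.inl.injEq] at this
      rw [this]
    | node n q len g s =>
      have := congrFun h []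
      simp [enc] at this
  | node n q len g s ihq ihg =>
    intro b h
    cases b with
    | atom b =>
      have := congrFun h []
      simp [enc] at this
    | node n' q' len' g' s' =>
      have h0 := congrFun h []
      simp only [enc, Sum.inr.injEq, Prod.mk.injEq] at h0
      obtain ⟨rfl, rfl, rfl⟩ := h0
      have h1 : q = q' := by
        funext i
        apply ihq i
        funext l
        have := congrFun h (0 :: i :: l)
        simpa only [enc] using this
      have h2 : g = g' := by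
        funext k j
        apply ihg k j
        funext l
        have := congrFun h (1 :: k :: j :: l)
        simpa only [enc] using this
      rw [h1, h2]

theorem mk_seq : Cardinal.mk (ℕ → Nd) ≤ Cardinal.continuum := by
  have h1 : Cardinal.mk Nd ≤ Cardinal.continuum := by
    refine (Cardinal.mk_le_of_injective enc_inj).trans ?_
    simp
  have h2 : Cardinal.mk (ℕ → Nd) = Cardinal.mk Nd ^ Cardinal.aleph0 := by
    simp
  rw [h2]
  calc Cardinal.mk Nd ^ Cardinal.aleph0 ≤ Cardinal.continuum ^ Cardinal.aleph0 :=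
        Cardinal.power_le_power_right h1
    _ = Cardinal.continuum := Cardinal.continuum_power_aleph0

theorem exists_inj_choice {I Λ : Type} (S : I → Set Λ) (κ : Cardinal.{0})
    (hI : Cardinal.mk I ≤ κ) (hS : ∀ i, κ ≤ Cardinal.mk (S i)) :
    ∃ f : I → Λ, Function.Injective f ∧ ∀ i, f i ∈ S i := by
  classical
  obtain ⟨r, wo, hr⟩ := Cardinal.exists_ord_eq I
  have key : ∀ (i : I) (g : ∀ j, r j i → Λ), ∃ x ∈ S i, ∀ j (hj : r j i), g j hj ≠ x := by
    intro i g
    by_contra hc
    push Not at hc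
    have h1 : S i ⊆ Set.range (fun j : {j // r j i} => g j.1 j.2) := by
      intro x hx
      obtain ⟨j, hj, rfl⟩ := hc x hx
      exact ⟨⟨j, hj⟩, rfl⟩
    have h2 : Cardinal.mk (S i) ≤ Cardinal.mk {j // r j i} :=
      (Cardinal.mk_le_mk_of_subset h1).trans Cardinal.mk_range_le
    have h3 : Cardinal.mk {j // r j i} < Cardinal.mk I := by
      have := Cardinal.card_typein_lt i hr
      rwa [Ordinal.card_typein] at this
    exact absurd (h3.trans_le (hI.trans ((hS i).trans h2))) (lt_irrefl _)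
  let f : I → Λ := wo.wf.fix (fun i g => Classical.choose (key i g))
  have hf : ∀ i, f i = Classical.choose (key i fun j _ => f j) := fun i => wo.wf.fix_eq _ _
  have hf1 : ∀ i, f i ∈ S i := by
    intro i
    rw [hf i]
    exact (Classical.choose_spec (key i fun j _ => f j)).1
  have hf2 : ∀ i j, r j i → f j ≠ f i := by
    intro i j hj
    rw [hf i]
    exact (Classical.choose_spec (key i fun j _ => f j)).2 j hj
  refine ⟨f, ?_, hf1⟩
  intro a b hab
  rcases trichotomous_of r a b with h | h | h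
  · exact absurd hab (hf2 b a h)
  · exact h
  · exact absurd hab.symm (hf2 a b h)

end Nd

open Nd TopologicalSpace

/-- `P` is a pi-base: a family of nonempty open sets such that every nonempty open set contains
a member of `P`. -/
def IsPiBase {X : Type} [TopologicalSpace X] (P : Set (Set X)) : Prop :=
  (∀ U ∈ P, IsOpen U ∧ U.Nonempty) ∧ ∀ V : Set X, IsOpen V → V.Nonempty → ∃ U ∈ P, U ⊆ V

theorem result :
    ∃ (X : Type) (_ : TopologicalSpace X), T2Space X ∧ FirstCountableTopology X ∧
      (∀ x : X, ¬ IsOpen ({x} : Set X)) ∧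
      ∃ B : Set (Set X), IsTopologicalBasis B ∧
        ∀ B₀ ⊆ B, IsTopologicalBasis B₀ → ∀ P ⊆ B \ B₀, ¬ IsPiBase P := by
  classical
  let X : Type := {f : ℕ → Nd // Cardinal.continuum ≤ Cardinal.mk (Lam f)}
  obtain ⟨c, hcinj, hcS⟩ := exists_inj_choice (I := X) (Λ := Set ℕ) (fun i => Lam i.1)
    Cardinal.continuum ((Cardinal.mk_subtype_le _).trans mk_seq) (fun i => i.2)
  have hex : ∀ i : X, ∃ x : ℕ → Nd, IsPt x ∧ (∀ n, x n ∈ Set.range i.1) ∧ c i = lam x := hcS
  choose pt hpt hptr hptc using hex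
  let bs : Nd → Set X := fun p => {i | ∃ n, Le p (pt i n)}
  let B : Set (Set X) := bs '' {p | Valid p}
  have hmono : ∀ p q : Nd, Le p q → bs q ⊆ bs p := by
    rintro p q hpq i ⟨n, hn⟩
    exact ⟨n, Le.trans ((hpt i).1 n) hpq hn⟩
  have hself : ∀ (i : X) (n : ℕ), i ∈ bs (pt i n) := fun i n => ⟨n, Le.refl _⟩
  have hsub : ∀ p q : Nd, Valid q → bs q ⊆ bs p → Le p q := by
    intro p q hq hsub
    by_contra hp
    obtain ⟨f, hf, hc⟩ := avoid_rich q p hq hp
    have hall : ∀ n, Le q (pt ⟨f, hc⟩ n) ∧ ¬ Le p (pt ⟨f, hc⟩ n) := by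
      intro n
      obtain ⟨m, hm⟩ := hptr ⟨f, hc⟩ n
      rw [← hm]
      exact hf m
    obtain ⟨n, hn⟩ := hsub (show (⟨f, hc⟩ : X) ∈ bs q from ⟨0, (hall 0).1⟩)
    exact (hall n).2 hn
  have hne : ∀ q : Nd, Valid q → (bs q).Nonempty := by
    intro q hq
    obtain ⟨p, hp⟩ := (finite_le q).exists_notMem
    obtain ⟨f, hf, hc⟩ := avoid_rich q p hq hp
    refine ⟨⟨f, hc⟩, 0, ?_⟩
    obtain ⟨m, hm⟩ := hptr ⟨f, hc⟩ 0
    rw [← hm]
    exact (hf m).1
  let τ : TopologicalSpace X := generateFrom B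
  have hB : @IsTopologicalBasis X τ B := by
    refine @IsTopologicalBasis.mk X τ B ?_ ?_ rfl
    · rintro _ ⟨p, hp, rfl⟩ _ ⟨q, hq, rfl⟩ i ⟨⟨n, hn⟩, ⟨m, hm⟩⟩
      refine ⟨bs (pt i (max n m)), ⟨_, (hpt i).1 _, rfl⟩, hself i _, Set.subset_inter ?_ ?_⟩
      · exact hmono _ _ (Le.trans ((hpt i).1 _) hn ((hpt i).le_of_le (le_max_left n m)))
      · exact hmono _ _ (Le.trans ((hpt i).1 _) hm ((hpt i).le_of_le (le_max_right n m)))
    · rw [Set.sUnion_eq_univ_iff]
      intro i
      exact ⟨bs (pt i 0), ⟨_, (hpt i).1 _, rfl⟩, hself i 0⟩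
  refine ⟨X, τ, ?_, ?_, ?_, B, hB, ?_⟩
  · -- Hausdorff
    have aux : ∀ (i j : X) (L : ℕ), L ∈ lam (pt i) → L ∉ lam (pt j) →
        ∃ n m, Disjoint (bs (pt i n)) (bs (pt j m)) := by
      rintro i j L ⟨n, hn⟩ hL
      obtain ⟨m, hm⟩ := (hpt j).2.2 L
      have hb : (lab (pt j m))[L]? = some false := by
        rw [List.getElem?_eq_getElem hm]
        cases hbb : (lab (pt j m))[L] with
        | false => rfl
        | true =>
          exact absurd ⟨m, by rw [List.getElem?_eq_getElem hm, hbb]⟩ hL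
      refine ⟨n, m, Set.disjoint_left.2 ?_⟩
      rintro z ⟨a, ha⟩ ⟨b, hb'⟩
      have h1 := prefix_getElem? (((hpt z).1 a).lab_le ha) hn
      have h2 := prefix_getElem? (((hpt z).1 b).lab_le hb') hb
      have := (hpt z).bit_unique h1 h2
      simp at this
    refine @T2Space.mk X τ ?_
    intro i j hij
    have hl : lam (pt i) ≠ lam (pt j) := by
      rw [← hptc, ← hptc]
      exact fun h => hij (hcinj h)
    have hL : ∃ L, (L ∈ lam (pt i) ∧ L ∉ lam (pt j)) ∨ (L ∈ lam (pt j) ∧ L ∉ lam (pt i)) := by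
      by_contra hc
      push Not at hc
      exact hl (Set.ext fun L => ⟨(hc L).1, (hc L).2⟩)
    obtain ⟨L, ⟨h1, h2⟩ | ⟨h1, h2⟩⟩ := hL
    · obtain ⟨n, m, hd⟩ := aux i j L h1 h2
      exact ⟨_, _, hB.isOpen ⟨_, (hpt i).1 n, rfl⟩, hB.isOpen ⟨_, (hpt j).1 m, rfl⟩,
        hself i n, hself j m, hd⟩
    · obtain ⟨n, m, hd⟩ := aux j i L h1 h2
      exact ⟨_, _, hB.isOpen ⟨_, (hpt i).1 m, rfl⟩, hB.isOpen ⟨_, (hpt j).1 n, rfl⟩,
        hself i m, hself j n, hd.symm⟩
  · -- first countable
    refine @FirstCountableTopology.mk X τ ?_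
    intro i
    have hbasis : (@nhds X τ i).HasBasis (fun _ : ℕ => True) (fun n => bs (pt i n)) := by
      refine ⟨fun s => ?_⟩
      rw [hB.mem_nhds_iff]
      constructor
      · rintro ⟨_, ⟨p, hp, rfl⟩, ⟨n, hn⟩, hs⟩
        exact ⟨n, trivial, (hmono _ _ hn).trans hs⟩
      · rintro ⟨n, -, hs⟩
        exact ⟨_, ⟨_, (hpt i).1 n, rfl⟩, hself i n, hs⟩
    exact hbasis.isCountablyGenerated
  · -- no isolated points
    intro i hi
    obtain ⟨_, ⟨p, hp, rfl⟩, ⟨n, hn⟩, hs⟩ := hB.exists_subset_of_mem_open (Set.mem_singleton i) hi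
    have h1 : bs (pt i n) ⊆ bs (pt i (n+1)) := by
      intro j hj
      have : j = i := hs (hmono _ _ hn hj)
      rw [this]
      exact hself i (n+1)
    have h2 := hsub _ _ ((hpt i).1 n) h1
    have h3 : pt i n ∈ Qs (pt i (n+1)) := ((hpt i).2.1 (n+1) n (Nat.lt_succ_self n)).1
    rcases h2 with h | h
    · rw [h] at h3
      exact irrefl _ h3
    · exact irrefl _ (((hpt i).1 (n+1)).trans_mem h3 h)
  · -- main property
    intro B₀ hB₀ hbase P hP hpi
    have hcof : ∀ p, Valid p → ∃ d ∈ {p | Valid p ∧ bs p ∈ P}, Le p d := by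
      intro p hp
      obtain ⟨U, hU, hUp⟩ := hpi.2 (bs p) (hB.isOpen ⟨p, hp, rfl⟩) (hne p hp)
      obtain ⟨q, hq, rfl⟩ := (hP hU).1
      exact ⟨q, ⟨hq, hU⟩, hsub _ _ hq hUp⟩
    obtain ⟨f, hf, hc⟩ := cofinal_rich {p | Valid p ∧ bs p ∈ P} (fun z hz => hz.1) hcof
    have hall : ∀ n, bs (pt ⟨f, hc⟩ n) ∈ P := by
      intro n
      obtain ⟨m, hm⟩ := hptr ⟨f, hc⟩ n
      rw [← hm]
      exact (hf m).2
    obtain ⟨U, hU, hiU, hUs⟩ := hbase.exists_subset_of_mem_open (hself ⟨f, hc⟩ 0)
      (hB.isOpen ⟨_, (hpt ⟨f, hc⟩).1 0, rfl⟩)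
    obtain ⟨q, hq, rfl⟩ := hB₀ hU
    obtain ⟨n, hn⟩ := hiU
    obtain ⟨j, hj, rfl⟩ := mem_of_good ((hpt ⟨f, hc⟩).2.1 n) ((hpt ⟨f, hc⟩).1 n) hn
      (hsub _ _ hq hUs)
    exact (hP (hall j)).2 hU

end Pool.Agent.Results.MP_42a2a8_gt.HausdorffCounterexample
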